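import Pool.Agent.W78.EC.Defs2

/-!
Project EC (helper78): bounds and variation of the main term (S_JB, S_JV).
-/

set_option autoImplicit false

namespace Pool.Agent.W683.EC

open Finset Filter
open Pool.Agent.W78.GA
open Pool.Agent.W78.EC

lemma hD0 : (0 : ℤ) ^ 2 < 4 * 1 := by norm_num

lemma nmR (z : Gi) : (nm z : ℝ) = (z.re : ℝ) ^ 2 + (z.im : ℝ) ^ 2 := by
  rw [nm_castR hD0]; push_cast; ring

lemma nm_comb (w₁ w₂ : Gi) (m₁ m₂ : ℕ) : (nm ((m₂ : Gi) * w₁ - (m₁ : Gi) * w₂) : ℝ) =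
    (m₂ : ℝ) ^ 2 * nm w₁ - 2 * m₁ * m₂ * ip w₁ w₂ + (m₁ : ℝ) ^ 2 * nm w₂ := by
  rw [nmR, nmR, nmR]
  unfold ip
  simp only [QuadraticAlgebra.re_sub, QuadraticAlgebra.im_sub, QuadraticAlgebra.re_mul,
    QuadraticAlgebra.im_mul, QuadraticAlgebra.re_natCast, QuadraticAlgebra.im_natCast]
  push_cast
  ring

lemma nm_sub_le (a b : Gi) : (nm (a - b) : ℝ) ≤ 2 * nm a + 2 * nm b := by
  rw [nmR, nmR, nmR]
  simp only [QuadraticAlgebra.re_sub, QuadraticAlgebra.im_sub]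
  push_cast
  nlinarith [sq_nonneg ((a.re : ℝ) + b.re), sq_nonneg ((a.im : ℝ) + b.im)]

lemma psi_nonneg (x : ℝ) : 0 ≤ psi x := by unfold psi; positivity

lemma psi_le {x : ℝ} (hx : 0 ≤ x) : psi x ≤ 16 := by
  unfold psi
  have h1 : max 0 (4 - x) ≤ 4 := max_le (by norm_num) (by linarith)
  have h2 : 0 ≤ max 0 (4 - x) := le_max_left _ _
  nlinarith

lemma psi_eq_zero {x : ℝ} (hx : 4 ≤ x) : psi x = 0 := by
  unfold psi
  rw [max_eq_left (by linarith)]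
  norm_num

lemma psi_lip {x y : ℝ} (hx : 0 ≤ x) (hy : 0 ≤ y) : |psi x - psi y| ≤ 8 * |x - y| := by
  unfold psi
  have a1 : max 0 (4 - x) ≤ 4 := max_le (by norm_num) (by linarith)
  have a2 : 0 ≤ max 0 (4 - x) := le_max_left _ _
  have b1 : max 0 (4 - y) ≤ 4 := max_le (by norm_num) (by linarith)
  have b2 : 0 ≤ max 0 (4 - y) := le_max_left _ _
  have h1 : |max 0 (4 - x) - max 0 (4 - y)| ≤ |x - y| := by
    have h2 := abs_max_sub_max_le_abs (4 - x) (4 - y) 0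
    have h3 : (4 - x) - (4 - y) = -(x - y) := by ring
    rw [h3, abs_neg, max_comm (4 - x), max_comm (4 - y)] at h2
    exact h2
  have h4 : (max 0 (4 - x)) ^ 2 - (max 0 (4 - y)) ^ 2 =
      (max 0 (4 - x) - max 0 (4 - y)) * (max 0 (4 - x) + max 0 (4 - y)) := by ring
  rw [h4, abs_mul, abs_of_nonneg (by linarith : 0 ≤ max 0 (4 - x) + max 0 (4 - y))]
  calc |max 0 (4 - x) - max 0 (4 - y)| * (max 0 (4 - x) + max 0 (4 - y))
      ≤ |x - y| * 8 := mul_le_mul h1 (by linarith) (by linarith) (abs_nonneg _)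
    _ = 8 * |x - y| := by ring

lemma card_diam (S : Finset ℕ) (L : ℝ) (hL : 0 ≤ L)
    (h : ∀ a ∈ S, ∀ b ∈ S, (b : ℝ) - a ≤ L) : (S.card : ℝ) ≤ L + 1 := by
  rcases S.eq_empty_or_nonempty with rfl | hne
  · simp; linarith
  · have h1 : S ⊆ Icc (S.min' hne) (S.max' hne) := fun a ha =>
      mem_Icc.2 ⟨S.min'_le a ha, S.le_max' a ha⟩
    have h2 := Finset.card_le_card h1
    rw [Nat.card_Icc] at h2
    have h3 := h _ (S.min'_mem hne) _ (S.max'_mem hne)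
    have h4 : S.min' hne ≤ S.max' hne := S.min'_le _ (S.max'_mem hne)
    have h5 : S.card + S.min' hne ≤ S.max' hne + 1 := by omega
    have h6 : (S.card : ℝ) + (S.min' hne : ℕ) ≤ (S.max' hne : ℕ) + 1 := by exact_mod_cast h5
    linarith

theorem jb : S_JB := by
  intro s hs
  refine ⟨8 * (4 / Real.sqrt s + 1), ?_⟩
  intro Q X w₁ w₂ hQ hX h1 h1' h2 h2' hD
  have hX0 : 0 < X := by linarith
  have hsq : 0 < Real.sqrt s := Real.sqrt_pos.2 hs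
  set D : ℝ := (dt w₁ w₂ : ℝ) with hDdef
  have hD1 : 1 ≤ D := by
    have : (1 : ℤ) ≤ dt w₁ w₂ := hD
    rw [hDdef]; exact_mod_cast this
  have hD0' : 0 < D := by linarith
  have hDX : 0 < D ^ 2 * X := by positivity
  -- sum over m₂
  have hsum : ∀ m₁ ∈ Ioc Q (2 * Q), ∑ m₂ ∈ Ioc Q (2 * Q),
      psi (nm ((m₂ : Gi) * w₁ - (m₁ : Gi) * w₂) / (D ^ 2 * X)) ≤ 16 * (4 * D / Real.sqrt s + 1) := by
    intro m₁ _
    classical
    set S := (Ioc Q (2 * Q)).filter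
      (fun m₂ : ℕ => (nm ((m₂ : Gi) * w₁ - (m₁ : Gi) * w₂) : ℝ) < 4 * (D ^ 2 * X)) with hS
    have e1 : ∑ m₂ ∈ Ioc Q (2 * Q), psi (nm ((m₂ : Gi) * w₁ - (m₁ : Gi) * w₂) / (D ^ 2 * X)) =
        ∑ m₂ ∈ S, psi (nm ((m₂ : Gi) * w₁ - (m₁ : Gi) * w₂) / (D ^ 2 * X)) := by
      rw [hS, Finset.sum_filter]
      refine Finset.sum_congr rfl fun m₂ _ => ?_
      split_ifs with h
      · rfl
      · exact psi_eq_zero (by rw [le_div_iff₀ hDX]; exact not_lt.1 h)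
    rw [e1]
    have e2 : ∑ m₂ ∈ S, psi (nm ((m₂ : Gi) * w₁ - (m₁ : Gi) * w₂) / (D ^ 2 * X)) ≤
        S.card * 16 := by
      calc _ ≤ ∑ _m ∈ S, (16 : ℝ) := Finset.sum_le_sum fun m₂ _ => psi_le (by positivity)
        _ = _ := by rw [Finset.sum_const, nsmul_eq_mul]
    refine e2.trans ?_
    have e3 : (S.card : ℝ) ≤ 4 * D / Real.sqrt s + 1 := by
      refine card_diam S _ (by positivity) fun a ha b hb => ?_
      have ha' := (Finset.mem_filter.1 ha).2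
      have hb' := (Finset.mem_filter.1 hb).2
      have h3 := nm_sub_le ((b : Gi) * w₁ - (m₁ : Gi) * w₂) ((a : Gi) * w₁ - (m₁ : Gi) * w₂)
      have h4 : (nm ((b : Gi) * w₁ - (m₁ : Gi) * w₂ - ((a : Gi) * w₁ - (m₁ : Gi) * w₂)) : ℝ) =
          ((b : ℝ) - a) ^ 2 * nm w₁ := by
        rw [nmR, nmR]
        simp only [QuadraticAlgebra.re_sub, QuadraticAlgebra.im_sub, QuadraticAlgebra.re_mul,
          QuadraticAlgebra.im_mul, QuadraticAlgebra.re_natCast, QuadraticAlgebra.im_natCast]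
        push_cast
        ring
      rw [h4] at h3
      have h5 : ((b : ℝ) - a) ^ 2 * (s * X) ≤ 16 * (D ^ 2 * X) := by
        have := mul_le_mul_of_nonneg_left h1.le (sq_nonneg ((b : ℝ) - a))
        linarith
      have h6 : ((b : ℝ) - a) ^ 2 * s ≤ 16 * D ^ 2 := by
        have h7 : (((b : ℝ) - a) ^ 2 * s) * X ≤ (16 * D ^ 2) * X := by linarith
        exact le_of_mul_le_mul_right h7 hX0
      rw [le_div_iff₀ hsq]
      refine le_of_sq_le_sq ?_ (by positivity) |>.trans le_rfl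
      rw [mul_pow, Real.sq_sqrt hs.le]
      linarith
    linarith
  have htot : ∑ m₁ ∈ Ioc Q (2 * Q), ∑ m₂ ∈ Ioc Q (2 * Q),
      psi (nm ((m₂ : Gi) * w₁ - (m₁ : Gi) * w₂) / (D ^ 2 * X)) ≤
      Q * (16 * (4 * D / Real.sqrt s + 1)) := by
    have hc : ((Ioc Q (2 * Q)).card : ℝ) = Q := by
      rw [Nat.card_Ioc]
      have : 2 * Q - Q = Q := by omega
      rw [this]
    calc _ ≤ ∑ _m₁ ∈ Ioc Q (2 * Q), (16 * (4 * D / Real.sqrt s + 1)) := Finset.sum_le_sum hsum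
      _ = _ := by rw [Finset.sum_const, nsmul_eq_mul, hc]
  have htot0 : 0 ≤ ∑ m₁ ∈ Ioc Q (2 * Q), ∑ m₂ ∈ Ioc Q (2 * Q),
      psi (nm ((m₂ : Gi) * w₁ - (m₁ : Gi) * w₂) / (D ^ 2 * X)) :=
    Finset.sum_nonneg fun _ _ => Finset.sum_nonneg fun _ _ => psi_nonneg _
  have hxi : |1 + (xi w₁ w₂ : ℝ)| ≤ 2 := by
    unfold xi
    split_ifs <;> norm_num
  have hphi : (0 : ℝ) < (Nat.totient (dt w₁ w₂).toNat : ℝ) := by
    have : 0 < (dt w₁ w₂).toNat := by omega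
    exact_mod_cast Nat.totient_pos.2 this
  unfold G0
  rw [abs_mul, abs_div, abs_of_pos (by positivity : (0:ℝ) < 4 * (Nat.totient (dt w₁ w₂).toNat : ℝ)),
    abs_of_nonneg htot0]
  calc |1 + (xi w₁ w₂ : ℝ)| / (4 * (Nat.totient (dt w₁ w₂).toNat : ℝ)) *
        (∑ m₁ ∈ Ioc Q (2 * Q), ∑ m₂ ∈ Ioc Q (2 * Q),
          psi (nm ((m₂ : Gi) * w₁ - (m₁ : Gi) * w₂) / (D ^ 2 * X)))
      ≤ 2 / (4 * (Nat.totient (dt w₁ w₂).toNat : ℝ)) *
        (Q * (16 * (4 * D / Real.sqrt s + 1))) := by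
        refine mul_le_mul ?_ htot htot0 (by positivity)
        exact div_le_div_of_nonneg_right hxi (by positivity)
    _ ≤ 2 / (4 * (Nat.totient (dt w₁ w₂).toNat : ℝ)) *
        (Q * (16 * ((4 / Real.sqrt s + 1) * D))) := by
        refine mul_le_mul_of_nonneg_left ?_ (by positivity)
        refine mul_le_mul_of_nonneg_left ?_ (by positivity)
        have : 4 * D / Real.sqrt s = 4 / Real.sqrt s * D := by ring
        rw [this]
        nlinarith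
    _ = 8 * (4 / Real.sqrt s + 1) * Q * (D / (Nat.totient (dt w₁ w₂).toNat : ℝ)) := by
        field_simp
        ring

/-! ### variation of `kk` -/

lemma nm_pos' {z : Gi} {a : ℝ} (ha : 0 ≤ a) (h : a < (nm z : ℝ)) : z ≠ 0 := by
  rintro rfl
  rw [nm_zero] at h
  simp at h
  linarith

lemma re_eq (z : Gi) : (z.re : ℝ) = Real.sqrt (nm z) * Real.cos (ang z) := by
  have h1 := Complex.norm_mul_cos_arg (tc z)
  rw [norm_tc hD0, tc_re] at h1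
  unfold ang
  rw [h1]; push_cast; ring

lemma im_eq (z : Gi) : (z.im : ℝ) = Real.sqrt (nm z) * Real.sin (ang z) := by
  have h1 := Complex.norm_mul_sin_arg (tc z)
  rw [norm_tc hD0, tc_im] at h1
  unfold ang
  rw [h1]
  have h2 : Real.sqrt (4 * ((1 : ℤ) : ℝ) - ((0 : ℤ) : ℝ) ^ 2) = 2 := by
    have : (4 * ((1 : ℤ) : ℝ) - ((0 : ℤ) : ℝ) ^ 2) = 2 ^ 2 := by push_cast; norm_num
    rw [this, Real.sqrt_sq (by norm_num)]
  rw [h2]; ring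

lemma dt_eq (v u : Gi) : (dt v u : ℝ) =
    Real.sqrt (nm v) * Real.sqrt (nm u) * Real.sin (ang u - ang v) := by
  unfold dt
  push_cast
  rw [re_eq v, im_eq v, re_eq u, im_eq u, Real.sin_sub]
  ring

lemma ip_sq (v u : Gi) : (ip v u : ℝ) ^ 2 = nm v * nm u - (dt v u : ℝ) ^ 2 := by
  have h := ip_dt hD0 v u
  have h2 : ((nm v : ℤ) : ℝ) * ((nm u : ℤ) : ℝ) = ((ip v u : ℤ) : ℝ) ^ 2 +
      ((0 : ℤ) : ℝ) * (ip v u : ℤ) * (dt v u : ℤ) + ((1 : ℤ) : ℝ) * ((dt v u : ℤ) : ℝ) ^ 2 := by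
    exact_mod_cast h
  push_cast at h2
  linarith

lemma sin_lip (a b : ℝ) : |Real.sin a - Real.sin b| ≤ |a - b| := by
  have := Real.lipschitzWith_sin.dist_le_mul a b
  simpa [Real.dist_eq] using this

/-- bound for the difference of the determinants -/
lemma dd_bound {C₀ s ε₁ Q X N1 N2 N1' N2' r1 r2 r1' r2' S S' D D' : ℝ} (hC : 0 < C₀) (hs : 0 < s)
    (he : 0 < ε₁) (hX : 0 < X) (hQ : 0 < Q) (hr1 : 0 ≤ r1) (hr2 : 0 ≤ r2) (hr1' : 0 ≤ r1')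
    (hr2' : 0 ≤ r2') (q1 : r1 ^ 2 = N1) (q2 : r2 ^ 2 = N2) (q1' : r1' ^ 2 = N1')
    (q2' : r2' ^ 2 = N2') (l1 : s * X < N1) (u1 : N1 ≤ X) (l2 : s * X < N2) (u2 : N2 ≤ X)
    (l1' : s * X < N1') (u1' : N1' ≤ X) (l2' : s * X < N2') (u2' : N2' ≤ X)
    (d1 : |N1 - N1'| ≤ ε₁ * X) (d2 : |N2 - N2'| ≤ ε₁ * X) (eD : D = r1 * r2 * S)
    (eD' : D' = r1' * r2' * S') (hD : 0 ≤ D) (hDu : D ≤ C₀ * Q)
    (hS : |S - S'| ≤ 2 * ε₁ * Q / X) :
    |D - D'| ≤ ε₁ * Q * (C₀ / s ^ 2 + 2) := by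
  have hsX : 0 < s * X := by positivity
  have h1 : s * X ≤ r1 * r2 := by
    refine le_of_sq_le_sq ?_ (by positivity)
    rw [mul_pow r1, q1, q2]
    nlinarith
  have h1' : s * X ≤ r1' * r2' := by
    refine le_of_sq_le_sq ?_ (by positivity)
    rw [mul_pow r1', q1', q2']
    nlinarith
  have h2' : r1' * r2' ≤ X := by
    refine le_of_sq_le_sq ?_ hX.le
    rw [mul_pow, q1', q2']
    nlinarith
  have h3 : |r1 * r2 - r1' * r2'| ≤ ε₁ * X / s := by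
    have e1 : (r1 * r2 - r1' * r2') * (r1 * r2 + r1' * r2') = (N1 - N1') * N2 + N1' * (N2 - N2') := by
      rw [← q1, ← q2, ← q1', ← q2']; ring
    have e2 : |(N1 - N1') * N2 + N1' * (N2 - N2')| ≤ 2 * (ε₁ * X * X) := by
      refine (abs_add_le _ _).trans ?_
      rw [abs_mul, abs_mul, abs_of_nonneg (by linarith : 0 ≤ N2), abs_of_nonneg (by linarith : 0 ≤ N1')]
      have a1 : |N1 - N1'| * N2 ≤ (ε₁ * X) * X := mul_le_mul d1 u2 (by linarith) (by positivity)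
      have a2 : N1' * |N2 - N2'| ≤ X * (ε₁ * X) := mul_le_mul u1' d2 (abs_nonneg _) hX.le
      linarith
    rw [← e1, abs_mul, abs_of_nonneg (by linarith : 0 ≤ r1 * r2 + r1' * r2')] at e2
    rw [le_div_iff₀ hs]
    have e3 : |r1 * r2 - r1' * r2'| * (2 * (s * X)) ≤ 2 * (ε₁ * X * X) :=
      le_trans (mul_le_mul_of_nonneg_left (by linarith) (abs_nonneg _)) e2
    have e4 : (|r1 * r2 - r1' * r2'| * s) * X ≤ (ε₁ * X) * X := by nlinarith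
    exact le_of_mul_le_mul_right e4 hX
  have h4 : |S| ≤ C₀ * Q / (s * X) := by
    have e1 : |D| = r1 * r2 * |S| := by
      rw [eD, abs_mul, abs_of_nonneg (by positivity : 0 ≤ r1 * r2)]
    rw [abs_of_nonneg hD] at e1
    rw [le_div_iff₀ hsX]
    calc |S| * (s * X) ≤ |S| * (r1 * r2) := mul_le_mul_of_nonneg_left h1 (abs_nonneg _)
      _ = D := by rw [e1]; ring
      _ ≤ C₀ * Q := hDu
  have h5 : D - D' = (r1 * r2 - r1' * r2') * S + r1' * r2' * (S - S') := by rw [eD, eD']; ring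
  rw [h5]
  refine (abs_add_le _ _).trans ?_
  rw [abs_mul, abs_mul, abs_of_nonneg (by positivity : 0 ≤ r1' * r2')]
  have a1 : |r1 * r2 - r1' * r2'| * |S| ≤ (ε₁ * X / s) * (C₀ * Q / (s * X)) :=
    mul_le_mul h3 h4 (abs_nonneg _) (by positivity)
  have a2 : r1' * r2' * |S - S'| ≤ X * (2 * ε₁ * Q / X) :=
    mul_le_mul h2' hS (abs_nonneg _) hX.le
  have a3 : (ε₁ * X / s) * (C₀ * Q / (s * X)) = ε₁ * Q * (C₀ / s ^ 2) := by
    field_simp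
  have a4 : X * (2 * ε₁ * Q / X) = ε₁ * Q * 2 := by
    field_simp
  rw [a3] at a1
  rw [a4] at a2
  linarith

/-- bound for the difference of the inner products -/
lemma ii_bound {C₀ s ε₁ Q X N1 N2 N1' N2' I I' D D' K1 : ℝ} (hC : 0 < C₀) (hs : 0 < s)
    (he : 0 < ε₁) (he1 : ε₁ ≤ 1) (he2 : ε₁ ≤ s / (2 * C₀)) (hX : 0 < X) (hQ : 0 < Q)
    (hQX : Q ≤ ε₁ * X) (hK : 0 ≤ K1)
    (l1 : s * X < N1) (l2 : s * X < N2) (u2 : N2 ≤ X)
    (l1' : s * X < N1') (u1' : N1' ≤ X) (l2' : s * X < N2')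
    (d1 : |N1 - N1'| ≤ ε₁ * X) (d2 : |N2 - N2'| ≤ ε₁ * X) (hI : 0 < I) (hI' : 0 < I')
    (eI : I ^ 2 = N1 * N2 - D ^ 2) (eI' : I' ^ 2 = N1' * N2' - D' ^ 2)
    (hD : 0 ≤ D) (hDu : D ≤ C₀ * Q) (hD' : 0 ≤ D') (hDu' : D' ≤ C₀ * Q)
    (hDD : |D - D'| ≤ ε₁ * Q * K1) :
    |I - I'| ≤ (2 + 2 * C₀ * K1) / s * (ε₁ * X) := by
  have hsX : 0 < s * X := by positivity
  have hCQ : C₀ * Q ≤ s * X / 2 := by
    calc C₀ * Q ≤ C₀ * (s / (2 * C₀) * X) :=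
          mul_le_mul_of_nonneg_left (hQX.trans (mul_le_mul_of_nonneg_right he2 hX.le)) hC.le
      _ = s * X / 2 := by field_simp
  have low : ∀ {A B J E : ℝ}, s * X < A → s * X < B → 0 < J → J ^ 2 = A * B - E ^ 2 → 0 ≤ E →
      E ≤ C₀ * Q → s * X / 2 ≤ J := by
    intro A B J E hA hB hJ eJ hE hEu
    refine le_of_sq_le_sq ?_ hJ.le
    rw [eJ]
    have h1 : E ^ 2 ≤ (s * X / 2) ^ 2 := pow_le_pow_left₀ hE (hEu.trans hCQ) 2
    have h2 : (s * X) * (s * X) ≤ A * B := mul_le_mul hA.le hB.le hsX.le (by linarith)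
    nlinarith
  have lI := low l1 l2 hI eI hD hDu
  have lI' := low l1' l2' hI' eI' hD' hDu'
  have hQX' : Q ≤ X := hQX.trans (by nlinarith)
  have e1 : (I - I') * (I + I') = (N1 - N1') * N2 + N1' * (N2 - N2') - (D - D') * (D + D') := by
    have : (I - I') * (I + I') = I ^ 2 - I' ^ 2 := by ring
    rw [this, eI, eI']; ring
  have e2 : |(N1 - N1') * N2 + N1' * (N2 - N2') - (D - D') * (D + D')| ≤
      (2 + 2 * C₀ * K1) * (ε₁ * X * X) := by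
    refine (abs_sub _ _).trans ?_
    have a0 : |(N1 - N1') * N2 + N1' * (N2 - N2')| ≤ 2 * (ε₁ * X * X) := by
      refine (abs_add_le _ _).trans ?_
      rw [abs_mul, abs_mul, abs_of_nonneg (by linarith : 0 ≤ N2),
        abs_of_nonneg (by linarith : 0 ≤ N1')]
      have a1 : |N1 - N1'| * N2 ≤ (ε₁ * X) * X := mul_le_mul d1 u2 (by linarith) (by positivity)
      have a2 : N1' * |N2 - N2'| ≤ X * (ε₁ * X) := mul_le_mul u1' d2 (abs_nonneg _) hX.le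
      linarith
    have a3 : |(D - D') * (D + D')| ≤ (ε₁ * Q * K1) * (2 * (C₀ * Q)) := by
      rw [abs_mul, abs_of_nonneg (by linarith : 0 ≤ D + D')]
      exact mul_le_mul hDD (by linarith) (by linarith) (by positivity)
    have a4 : (ε₁ * Q * K1) * (2 * (C₀ * Q)) ≤ (2 * C₀ * K1) * (ε₁ * X * X) := by
      have a5 : Q * Q ≤ X * X := mul_le_mul hQX' hQX' hQ.le hX.le
      have a6 : (ε₁ * Q * K1) * (2 * (C₀ * Q)) = (2 * C₀ * K1 * ε₁) * (Q * Q) := by ring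
      have a7 : (2 * C₀ * K1) * (ε₁ * X * X) = (2 * C₀ * K1 * ε₁) * (X * X) := by ring
      rw [a6, a7]
      exact mul_le_mul_of_nonneg_left a5 (by positivity)
    linarith
  rw [← e1, abs_mul, abs_of_nonneg (by linarith : 0 ≤ I + I')] at e2
  have e3 : |I - I'| * (s * X) ≤ (2 + 2 * C₀ * K1) * (ε₁ * X * X) :=
    le_trans (mul_le_mul_of_nonneg_left (by linarith) (abs_nonneg _)) e2
  have e4 : (|I - I'| * s) * X ≤ ((2 + 2 * C₀ * K1) * (ε₁ * X)) * X := by nlinarith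
  have e5 := le_of_mul_le_mul_right e4 hX
  rw [div_mul_eq_mul_div, le_div_iff₀ hs]
  exact e5

/-- bound for the difference of the arguments of `psi` -/
lemma arg_bound {C₀ δ ε₁ Q X N1 N2 N1' N2' I I' D D' K1 c m₁ m₂ M M' : ℝ} (hC : 0 < C₀)
    (hδ : 0 < δ) (he : 0 < ε₁) (hX : 0 < X) (hQ : 0 < Q) (hK : 0 ≤ K1) (hc : 0 ≤ c)
    (hm₁ : 0 ≤ m₁) (hm₂ : 0 ≤ m₂) (hm₁' : m₁ ≤ 2 * Q) (hm₂' : m₂ ≤ 2 * Q)
    (d1 : |N1 - N1'| ≤ ε₁ * X) (d2 : |N2 - N2'| ≤ ε₁ * X) (dI : |I - I'| ≤ c * (ε₁ * X))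
    (eM : M = m₂ ^ 2 * N1 - 2 * m₁ * m₂ * I + m₁ ^ 2 * N2)
    (eM' : M' = m₂ ^ 2 * N1' - 2 * m₁ * m₂ * I' + m₁ ^ 2 * N2') (hM'0 : 0 ≤ M')
    (hM' : M' ≤ 16 * Q ^ 2 * X)
    (hD : δ * Q ≤ D) (hDu : D ≤ C₀ * Q) (hD' : δ * Q ≤ D') (hDu' : D' ≤ C₀ * Q)
    (hDD : |D - D'| ≤ ε₁ * Q * K1) :
    |M / (D ^ 2 * X) - M' / (D' ^ 2 * X)| ≤
      (8 * (1 + c) / δ ^ 2 + 32 * C₀ * K1 / δ ^ 4) * ε₁ := by
  have hδQ : 0 < δ * Q := by positivity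
  have hDp : 0 < D := by linarith
  have hDp' : 0 < D' := by linarith
  have p1 : m₂ ^ 2 ≤ 4 * Q ^ 2 := by nlinarith
  have p2 : m₁ ^ 2 ≤ 4 * Q ^ 2 := by nlinarith
  have p3 : m₁ * m₂ ≤ 4 * Q ^ 2 := by nlinarith
  have h1 : |M - M'| ≤ 4 * Q ^ 2 * (ε₁ * X) * (2 * (1 + c)) := by
    have e1 : M - M' = m₂ ^ 2 * (N1 - N1') + (-(2 * (m₁ * m₂)) * (I - I')) + m₁ ^ 2 * (N2 - N2') := by
      rw [eM, eM']; ring
    rw [e1]
    refine (abs_add_three _ _ _).trans ?_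
    rw [abs_mul, abs_mul, abs_mul, abs_neg, abs_of_nonneg (sq_nonneg m₂), abs_of_nonneg (sq_nonneg m₁),
      abs_of_nonneg (by positivity : 0 ≤ 2 * (m₁ * m₂))]
    have a1 : m₂ ^ 2 * |N1 - N1'| ≤ 4 * Q ^ 2 * (ε₁ * X) :=
      mul_le_mul p1 d1 (abs_nonneg _) (by positivity)
    have a2 : 2 * (m₁ * m₂) * |I - I'| ≤ 2 * (4 * Q ^ 2) * (c * (ε₁ * X)) :=
      mul_le_mul (by linarith) dI (abs_nonneg _) (by positivity)
    have a3 : m₁ ^ 2 * |N2 - N2'| ≤ 4 * Q ^ 2 * (ε₁ * X) :=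
      mul_le_mul p2 d2 (abs_nonneg _) (by positivity)
    linarith
  have h2 : |M / (D ^ 2 * X) - M' / (D ^ 2 * X)| ≤ 8 * (1 + c) / δ ^ 2 * ε₁ := by
    rw [← sub_div, abs_div, abs_of_pos (by positivity : 0 < D ^ 2 * X), div_le_iff₀ (by positivity)]
    refine h1.trans ?_
    have a1 : (δ * Q) ^ 2 ≤ D ^ 2 := pow_le_pow_left₀ hδQ.le hD 2
    have a2 : 8 * (1 + c) / δ ^ 2 * ε₁ * ((δ * Q) ^ 2 * X) ≤ 8 * (1 + c) / δ ^ 2 * ε₁ * (D ^ 2 * X) := by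
      refine mul_le_mul_of_nonneg_left ?_ (by positivity)
      exact mul_le_mul_of_nonneg_right a1 hX.le
    refine le_trans (le_of_eq ?_) a2
    field_simp
    ring
  have h3 : |M' / (D ^ 2 * X) - M' / (D' ^ 2 * X)| ≤ 32 * C₀ * K1 / δ ^ 4 * ε₁ := by
    have e1 : M' / (D ^ 2 * X) - M' / (D' ^ 2 * X) =
        (M' / X) * (((D' - D) * (D + D')) / (D ^ 2 * D' ^ 2)) := by
      field_simp
      ring
    rw [e1, abs_mul, abs_of_nonneg (by positivity : 0 ≤ M' / X), abs_div,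
      abs_of_pos (by positivity : 0 < D ^ 2 * D' ^ 2), abs_mul, abs_sub_comm D' D,
      abs_of_nonneg (by linarith : 0 ≤ D + D')]
    have a1 : M' / X ≤ 16 * Q ^ 2 := by rw [div_le_iff₀ hX]; exact hM'
    have a2 : |D - D'| * (D + D') ≤ (ε₁ * Q * K1) * (2 * (C₀ * Q)) :=
      mul_le_mul hDD (by linarith) (by linarith) (by positivity)
    have a3 : (δ * Q) ^ 2 * (δ * Q) ^ 2 ≤ D ^ 2 * D' ^ 2 :=
      mul_le_mul (pow_le_pow_left₀ hδQ.le hD 2) (pow_le_pow_left₀ hδQ.le hD' 2) (by positivity)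
        (by positivity)
    have a4 : |D - D'| * (D + D') / (D ^ 2 * D' ^ 2) ≤
        (ε₁ * Q * K1) * (2 * (C₀ * Q)) / ((δ * Q) ^ 2 * (δ * Q) ^ 2) :=
      div_le_div₀ (by positivity) a2 (by positivity) a3
    refine (mul_le_mul a1 a4 (by positivity) (by positivity)).trans (le_of_eq ?_)
    field_simp
    ring
  calc |M / (D ^ 2 * X) - M' / (D' ^ 2 * X)|
      = |(M / (D ^ 2 * X) - M' / (D ^ 2 * X)) + (M' / (D ^ 2 * X) - M' / (D' ^ 2 * X))| := by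
        congr 1; ring
    _ ≤ _ := abs_add_le _ _
    _ ≤ 8 * (1 + c) / δ ^ 2 * ε₁ + 32 * C₀ * K1 / δ ^ 4 * ε₁ := add_le_add h2 h3
    _ = _ := by ring

lemma nm_comb_le (w₁ w₂ : Gi) (m₁ m₂ Q : ℕ) {X : ℝ} (h1 : (nm w₁ : ℝ) ≤ X) (h2 : (nm w₂ : ℝ) ≤ X)
    (hm₁ : m₁ ≤ 2 * Q) (hm₂ : m₂ ≤ 2 * Q) :
    (nm ((m₂ : Gi) * w₁ - (m₁ : Gi) * w₂) : ℝ) ≤ 16 * (Q : ℝ) ^ 2 * X := by
  refine (nm_sub_le _ _).trans ?_
  have e : ∀ (m : ℕ) (w : Gi), (nm ((m : Gi) * w) : ℝ) = (m : ℝ) ^ 2 * nm w := by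
    intro m w
    rw [nm_mul, nm_natCast]; push_cast; ring
  rw [e, e]
  have a : ∀ (m : ℕ) (w : Gi), m ≤ 2 * Q → (nm w : ℝ) ≤ X → (m : ℝ) ^ 2 * nm w ≤ 4 * (Q : ℝ) ^ 2 * X := by
    intro m w hm hw
    have b1 : (m : ℝ) ≤ 2 * Q := by exact_mod_cast hm
    have b2 : (m : ℝ) ^ 2 ≤ 4 * (Q : ℝ) ^ 2 := by
      have := pow_le_pow_left₀ (Nat.cast_nonneg m) b1 2
      linarith
    exact mul_le_mul b2 hw (Nat.cast_nonneg _) (by positivity)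
  have := a m₂ w₁ hm₂ h1
  have := a m₁ w₂ hm₁ h2
  linarith

theorem jv : S_JV := by
  intro C₀ s δ ε hC hs hδ hε
  set K1 : ℝ := C₀ / s ^ 2 + 2 with hK1
  have hK : 0 < K1 := by positivity
  set c : ℝ := (2 + 2 * C₀ * K1) / s with hc
  have hcp : 0 < c := by positivity
  set c2 : ℝ := 8 * (1 + c) / δ ^ 2 + 32 * C₀ * K1 / δ ^ 4 with hc2
  have hc2p : 0 < c2 := by positivity
  set F : ℝ := 2 * c2 / δ + 4 * K1 / δ ^ 2 with hF
  have hFp : 0 < F := by positivity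
  refine ⟨min 1 (min (s / (2 * C₀)) (ε / F)), by positivity, ?_⟩
  intro Q X w₁ w₂ w₁' w₂' hQ hX1 hQX hw hD hDu hD' hDu' d1 d2 hI hI' ha1 ha2
  set ε₁ : ℝ := min 1 (min (s / (2 * C₀)) (ε / F)) with hε₁
  have he : 0 < ε₁ := by rw [hε₁]; positivity
  have he1 : ε₁ ≤ 1 := min_le_left _ _
  have he2 : ε₁ ≤ s / (2 * C₀) := (min_le_right _ _).trans (min_le_left _ _)
  have he3 : ε₁ ≤ ε / F := (min_le_right _ _).trans (min_le_right _ _)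
  have hX0 : 0 < X := by
    by_contra hcon
    have := mul_nonpos_of_nonneg_of_nonpos he.le (not_lt.1 hcon)
    linarith
  have hQ0 : (0 : ℝ) < Q := by exact_mod_cast hQ
  obtain ⟨l1, u1⟩ := hw w₁ (by simp)
  obtain ⟨l2, u2⟩ := hw w₂ (by simp)
  obtain ⟨l1', u1'⟩ := hw w₁' (by simp)
  obtain ⟨l2', u2'⟩ := hw w₂' (by simp)
  have hδQ : 0 < δ * Q := by positivity
  have hDp : (0 : ℝ) < dt w₁ w₂ := by linarith
  have hDp' : (0 : ℝ) < dt w₁' w₂' := by linarith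
  have hS : |Real.sin (ang w₂ - ang w₁) - Real.sin (ang w₂' - ang w₁')| ≤ 2 * ε₁ * Q / X := by
    refine (sin_lip _ _).trans ?_
    have e1 : ang w₂ - ang w₁ - (ang w₂' - ang w₁') = (ang w₂ - ang w₂') - (ang w₁ - ang w₁') := by
      ring
    rw [e1]
    refine (abs_sub _ _).trans ((add_le_add ha2 ha1).trans (le_of_eq ?_))
    ring
  have hDD : |(dt w₁ w₂ : ℝ) - dt w₁' w₂'| ≤ ε₁ * Q * K1 :=
    dd_bound (C₀ := C₀) (s := s) hC hs he hX0 hQ0 (Real.sqrt_nonneg (nm w₁))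
      (Real.sqrt_nonneg (nm w₂)) (Real.sqrt_nonneg (nm w₁')) (Real.sqrt_nonneg (nm w₂'))
      (Real.sq_sqrt (Nat.cast_nonneg _)) (Real.sq_sqrt (Nat.cast_nonneg _))
      (Real.sq_sqrt (Nat.cast_nonneg _)) (Real.sq_sqrt (Nat.cast_nonneg _)) l1 u1 l2 u2 l1' u1'
      l2' u2' d1 d2 (dt_eq w₁ w₂) (dt_eq w₁' w₂') hDp.le hDu hS
  have hII : |(ip w₁ w₂ : ℝ) - ip w₁' w₂'| ≤ c * (ε₁ * X) :=
    ii_bound (C₀ := C₀) (s := s) hC hs he he1 he2 hX0 hQ0 hQX hK.le l1 l2 u2 l1' u1' l2' d1 d2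
      (by exact_mod_cast hI) (by exact_mod_cast hI') (ip_sq w₁ w₂) (ip_sq w₁' w₂') hDp.le hDu
      hDp'.le hDu' hDD
  have hpsi : ∀ m₁ ∈ Ioc Q (2 * Q), ∀ m₂ ∈ Ioc Q (2 * Q),
      |psi (nm ((m₂ : Gi) * w₁ - (m₁ : Gi) * w₂) / ((dt w₁ w₂ : ℝ) ^ 2 * X)) -
        psi (nm ((m₂ : Gi) * w₁' - (m₁ : Gi) * w₂') / ((dt w₁' w₂' : ℝ) ^ 2 * X))| ≤
        8 * (c2 * ε₁) := by
    intro m₁ hm₁ m₂ hm₂
    have hm₁' := (Finset.mem_Ioc.1 hm₁).2
    have hm₂' := (Finset.mem_Ioc.1 hm₂).2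
    refine (psi_lip (by positivity) (by positivity)).trans ?_
    refine mul_le_mul_of_nonneg_left ?_ (by norm_num)
    exact arg_bound (C₀ := C₀) (δ := δ) hC hδ he hX0 hQ0 hK.le hcp.le (Nat.cast_nonneg m₁)
      (Nat.cast_nonneg m₂) (by exact_mod_cast hm₁') (by exact_mod_cast hm₂') d1 d2 hII
      (nm_comb w₁ w₂ m₁ m₂) (nm_comb w₁' w₂' m₁ m₂) (Nat.cast_nonneg _)
      (nm_comb_le w₁' w₂' m₁ m₂ Q u1' u2' hm₁' hm₂') hD hDu hD' hDu' hDD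
  have hcard : ((Ioc Q (2 * Q)).card : ℝ) = Q := by
    rw [Nat.card_Ioc]
    have : 2 * Q - Q = Q := by omega
    rw [this]
  set T1 : ℝ := ∑ m₁ ∈ Ioc Q (2 * Q), ∑ m₂ ∈ Ioc Q (2 * Q),
      psi (nm ((m₂ : Gi) * w₁ - (m₁ : Gi) * w₂) / ((dt w₁ w₂ : ℝ) ^ 2 * X)) with hT1
  set T2 : ℝ := ∑ m₁ ∈ Ioc Q (2 * Q), ∑ m₂ ∈ Ioc Q (2 * Q),
      psi (nm ((m₂ : Gi) * w₁' - (m₁ : Gi) * w₂') / ((dt w₁' w₂' : ℝ) ^ 2 * X)) with hT2
  have hdiff : |T1 - T2| ≤ (Q : ℝ) * (Q * (8 * (c2 * ε₁))) := by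
    rw [hT1, hT2, ← Finset.sum_sub_distrib]
    refine (Finset.abs_sum_le_sum_abs _ _).trans ?_
    calc _ ≤ ∑ _m₁ ∈ Ioc Q (2 * Q), (Q : ℝ) * (8 * (c2 * ε₁)) := by
          refine Finset.sum_le_sum fun m₁ hm₁ => ?_
          rw [← Finset.sum_sub_distrib]
          refine (Finset.abs_sum_le_sum_abs _ _).trans ?_
          calc _ ≤ ∑ _m₂ ∈ Ioc Q (2 * Q), (8 * (c2 * ε₁)) :=
                Finset.sum_le_sum fun m₂ hm₂ => hpsi m₁ hm₁ m₂ hm₂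
            _ = _ := by rw [Finset.sum_const, nsmul_eq_mul, hcard]
      _ = _ := by rw [Finset.sum_const, nsmul_eq_mul, hcard]
  have hT20 : 0 ≤ T2 := Finset.sum_nonneg fun _ _ => Finset.sum_nonneg fun _ _ => psi_nonneg _
  have hT2u : T2 ≤ (Q : ℝ) * (Q * 16) := by
    rw [hT2]
    calc _ ≤ ∑ _m₁ ∈ Ioc Q (2 * Q), (Q : ℝ) * 16 := by
          refine Finset.sum_le_sum fun m₁ hm₁ => ?_
          calc _ ≤ ∑ _m₂ ∈ Ioc Q (2 * Q), (16 : ℝ) :=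
                Finset.sum_le_sum fun m₂ hm₂ => psi_le (by positivity)
            _ = _ := by rw [Finset.sum_const, nsmul_eq_mul, hcard]
      _ = _ := by rw [Finset.sum_const, nsmul_eq_mul, hcard]
  set D : ℝ := (dt w₁ w₂ : ℝ) with hDdef
  set D' : ℝ := (dt w₁' w₂' : ℝ) with hDdef'
  have hkk : kk Q X w₁ w₂ - kk Q X w₁' w₂' =
      (T1 - T2) / (4 * D) + T2 * ((D' - D) / (4 * (D * D'))) := by
    have e1 : kk Q X w₁ w₂ = 1 / (4 * D) * T1 := rfl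
    have e2 : kk Q X w₁' w₂' = 1 / (4 * D') * T2 := rfl
    rw [e1, e2]
    field_simp
    ring
  rw [hkk]
  refine (abs_add_le _ _).trans ?_
  have b1 : |(T1 - T2) / (4 * D)| ≤ 2 * c2 / δ * (ε₁ * Q) := by
    rw [abs_div, abs_of_pos (by positivity : 0 < 4 * D), div_le_iff₀ (by positivity)]
    refine hdiff.trans ?_
    have : 2 * c2 / δ * (ε₁ * Q) * (4 * (δ * Q)) ≤ 2 * c2 / δ * (ε₁ * Q) * (4 * D) :=
      mul_le_mul_of_nonneg_left (by linarith) (by positivity)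
    refine le_trans (le_of_eq ?_) this
    field_simp
    ring
  have b2 : |T2 * ((D' - D) / (4 * (D * D')))| ≤ 4 * K1 / δ ^ 2 * (ε₁ * Q) := by
    rw [abs_mul, abs_of_nonneg hT20, abs_div, abs_of_pos (by positivity : 0 < 4 * (D * D')),
      abs_sub_comm D' D]
    have a3 : (δ * Q) * (δ * Q) ≤ D * D' := mul_le_mul hD hD' hδQ.le hDp.le
    have a4 : |D - D'| / (4 * (D * D')) ≤ (ε₁ * Q * K1) / (4 * ((δ * Q) * (δ * Q))) :=
      div_le_div₀ (by positivity) hDD (by positivity) (by linarith)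
    refine (mul_le_mul hT2u a4 (by positivity) (by positivity)).trans (le_of_eq ?_)
    field_simp
    ring
  calc _ ≤ 2 * c2 / δ * (ε₁ * Q) + 4 * K1 / δ ^ 2 * (ε₁ * Q) := add_le_add b1 b2
    _ = F * ε₁ * Q := by rw [hF]; ring
    _ ≤ ε * Q := by
        refine mul_le_mul_of_nonneg_right ?_ hQ0.le
        rw [le_div_iff₀ hFp] at he3
        linarith

end Pool.Agent.W683.EC
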